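import Pool.Agent.V11131.HlawkaTrace

/-!
# MP_1619cf: the Hlawka-type constant `C_p` of the Schatten norms is finite iff `1 < p < ∞`

For the Schatten `p`-norms put `D₂(X,Y) = ‖X‖+‖Y‖-‖X+Y‖`,
`D₃(X,Y,Z) = ‖X‖+‖Y‖+‖Z‖-‖X+Y+Z‖`, and let `C_p ∈ [0,∞]` be the infimum of all `C ≥ 0` with
`D₃ ≤ C (D₂ + D₂ + D₂)` for all complex matrices of all sizes.  We prove
`max(1, (p-2)/6) ≤ C_p ≤ 1 + 4 max(p-1, 1/(p-1))` for `1 < p < ∞`, `C_1 = ∞` and
`C_p → ∞` as `p ↓ 1` and as `p → ∞`.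
-/

namespace Pool.Agent.Results.MP_1619cf_an.FiniteIffAboveOne

open Matrix Filter Topology ENNReal NNReal
open Pool.Agent.V11131.HlawkaSvd Pool.Agent.V11131.HlawkaTrace

/-- `C` is an admissible constant for the exponent `p`. -/
def Admissible (p : ℝ) (C : ℝ≥0) : Prop :=
  ∀ (N M : ℕ), 1 ≤ N → 1 ≤ M → ∀ X Y Z : Matrix (Fin N) (Fin M) ℂ,
    D3 p X Y Z ≤ C * (D2 p X Y + D2 p X Z + D2 p Y Z)

/-- The constant `C_p ∈ [0,∞]`: the infimum of the admissible constants (`∞` if there is none). -/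
noncomputable def hlawkaConst (p : ℝ) : ℝ≥0∞ :=
  ⨅ (C : ℝ≥0) (_ : Admissible p C), (C : ℝ≥0∞)

/-! ### Finiteness for `p > 1` -/

theorem upper {p K : ℝ} (hp : 1 < p) (hK1 : p - 1 ≤ K) (hK2 : 1 / (p - 1) ≤ K) {N M : ℕ}
    (X Y Z : Matrix (Fin N) (Fin M) ℂ) :
    D3 p X Y Z ≤ (1 + 4 * K) * (D2 p X Y + D2 p X Z + D2 p Y Z) := by
  unfold D3 D2
  rcases le_total (schatten p Y) (schatten p X) with h1 | h1
  · rcases le_total (schatten p Z) (schatten p X) with h2 | h2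
    · exact hlawka_aux hp hK1 hK2 X Y Z h1 h2
    · have := hlawka_aux hp hK1 hK2 Z X Y h2 (h1.trans h2)
      rw [show Z + X + Y = X + Y + Z by abel, show Z + X = X + Z by abel,
        show Z + Y = Y + Z by abel] at this
      linarith
  · rcases le_total (schatten p Z) (schatten p Y) with h2 | h2
    · have := hlawka_aux hp hK1 hK2 Y X Z h1 h2
      rw [show Y + X + Z = X + Y + Z by abel, show Y + X = X + Y by abel] at this
      linarith
    · have := hlawka_aux hp hK1 hK2 Z X Y (h1.trans h2) h2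
      rw [show Z + X + Y = X + Y + Z by abel, show Z + X = X + Z by abel,
        show Z + Y = Y + Z by abel] at this
      linarith

lemma hlawkaConst_le {p : ℝ} (hp : 1 < p) :
    hlawkaConst p ≤ ENNReal.ofReal (1 + 4 * max (p - 1) (1 / (p - 1))) := by
  unfold hlawkaConst
  have h0 : 0 ≤ 1 + 4 * max (p - 1) (1 / (p - 1)) := by
    have : 0 ≤ max (p - 1) (1 / (p - 1)) := le_trans (by linarith) (le_max_left _ _)
    linarith
  refine (iInf₂_le (Real.toNNReal (1 + 4 * max (p - 1) (1 / (p - 1)))) ?_).trans le_rfl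
  intro N M _ _ X Y Z
  rw [Real.coe_toNNReal _ h0]
  exact upper hp (le_max_left _ _) (le_max_right _ _) X Y Z

lemma le_hlawkaConst {p : ℝ} {x : ℝ} (h : ∀ C : ℝ≥0, Admissible p C → x ≤ C) :
    ENNReal.ofReal x ≤ hlawkaConst p := by
  unfold hlawkaConst
  refine le_iInf fun C => le_iInf fun hC => ?_
  rw [← ENNReal.ofReal_coe_nnreal]
  exact ENNReal.ofReal_le_ofReal (h C hC)

/-! ### Diagonal matrices -/

lemma sum_eig {n : ℕ} (A : Matrix (Fin n) (Fin n) ℂ) (hA : A.IsHermitian) (d : Fin n → ℝ)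
    (h : A = diagonal (fun i => (d i : ℂ))) (f : ℝ → ℝ) :
    ∑ i, f (hA.eigenvalues i) = ∑ i, f (d i) := by
  have h1 := hA.roots_charpoly_eq_eigenvalues
  have h2 : A.charpoly.roots = Multiset.map (fun i => (d i : ℂ)) Finset.univ.val := by
    rw [h, Matrix.charpoly_diagonal, Polynomial.roots_prod]
    · simp
    · simp [Finset.prod_ne_zero_iff, Polynomial.X_sub_C_ne_zero]
  have h3 : Multiset.map hA.eigenvalues Finset.univ.val = Multiset.map d Finset.univ.val := by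
    have := congrArg (Multiset.map Complex.re) (h1.symm.trans h2)
    rw [Multiset.map_map, Multiset.map_map] at this
    simpa [Function.comp_def] using this
  have h4 := congrArg (fun s => (Multiset.map f s).sum) h3
  simp only [Multiset.map_map] at h4
  exact h4

lemma schatten_diag {n : ℕ} (p : ℝ) (x : Fin n → ℝ) (hx : ∀ i, 0 ≤ x i) :
    schatten p (diagonal (fun i => (x i : ℂ))) = (∑ i, x i ^ p) ^ (1 / p) := by
  unfold schatten sqSing
  have h := sum_eig _ (isHermitian_conjTranspose_mul_self (diagonal (fun i => (x i : ℂ))))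
    (fun i => x i * x i) (by
      rw [diagonal_conjTranspose, diagonal_mul_diagonal]
      congr 1
      ext i
      simp) (fun t => (Real.sqrt t) ^ p)
  rw [h]
  congr 1
  refine Finset.sum_congr rfl fun i _ => ?_
  rw [Real.sqrt_mul_self (hx i)]

lemma schatten_neg {N M : ℕ} (p : ℝ) (X : Matrix (Fin N) (Fin M) ℂ) :
    schatten p (-X) = schatten p X := by
  have : sqSing (-X) = sqSing X := by
    unfold sqSing
    rw [IsHermitian.eigenvalues_eq_eigenvalues_iff]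
    simp
  unfold schatten
  rw [this]

lemma one_le {p : ℝ} (hp : 1 ≤ p) : 1 ≤ hlawkaConst p := by
  have hp0 : p ≠ 0 := by linarith
  rw [← ENNReal.ofReal_one]
  refine le_hlawkaConst fun C hC => ?_
  have h := hC 1 1 le_rfl le_rfl (diagonal (fun _ => ((1 : ℝ) : ℂ)))
    (-(diagonal (fun _ => ((1 : ℝ) : ℂ)))) 0
  have e1 : schatten p (diagonal (fun _ : Fin 1 => ((1 : ℝ) : ℂ))) = 1 := by
    rw [schatten_diag p (fun _ => 1) (fun _ => zero_le_one)]; simp
  have e0 : schatten p (0 : Matrix (Fin 1) (Fin 1) ℂ) = 0 := by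
    have := schatten_diag (n := 1) p (fun _ => 0) (fun _ => le_rfl)
    simp only [Complex.ofReal_zero, diagonal_zero, Real.zero_rpow hp0, Finset.sum_const_zero] at this
    rw [this, Real.zero_rpow (one_div_ne_zero hp0)]
  unfold D3 D2 at h
  simp only [add_neg_cancel, add_zero, schatten_neg, e0, e1] at h
  linarith

lemma growth {p : ℝ} (hp : 1 ≤ p) (C : ℝ≥0) (hC : Admissible p C) : (p - 2) / 6 ≤ C := by
  have hp0 : 0 < p := by linarith
  have hu0 : 0 < 1 / p := by positivity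
  have hu1 : 1 / p ≤ 1 := by rw [div_le_one hp0]; exact hp
  have h := hC 3 3 (by norm_num) (by norm_num)
    (diagonal (fun i => (((![1, 1, 0] : Fin 3 → ℝ) i : ℝ) : ℂ)))
    (diagonal (fun i => (((![1, 0, 1] : Fin 3 → ℝ) i : ℝ) : ℂ)))
    (diagonal (fun i => (((![0, 1, 1] : Fin 3 → ℝ) i : ℝ) : ℂ)))
  have z : (0 : ℝ) ^ p = 0 := Real.zero_rpow hp0.ne'
  have o : (1 : ℝ) ^ p = 1 := Real.one_rpow p
  have a12 : (diagonal (fun i => (((![1, 1, 0] : Fin 3 → ℝ) i : ℝ) : ℂ)) +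
      diagonal (fun i => (((![1, 0, 1] : Fin 3 → ℝ) i : ℝ) : ℂ)) : Matrix (Fin 3) (Fin 3) ℂ)
      = diagonal (fun i => (((![2, 1, 1] : Fin 3 → ℝ) i : ℝ) : ℂ)) := by
    rw [diagonal_add]; congr 1; ext i; fin_cases i <;> norm_num
  have a13 : (diagonal (fun i => (((![1, 1, 0] : Fin 3 → ℝ) i : ℝ) : ℂ)) +
      diagonal (fun i => (((![0, 1, 1] : Fin 3 → ℝ) i : ℝ) : ℂ)) : Matrix (Fin 3) (Fin 3) ℂ)
      = diagonal (fun i => (((![1, 2, 1] : Fin 3 → ℝ) i : ℝ) : ℂ)) := by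
    rw [diagonal_add]; congr 1; ext i; fin_cases i <;> norm_num
  have a23 : (diagonal (fun i => (((![1, 0, 1] : Fin 3 → ℝ) i : ℝ) : ℂ)) +
      diagonal (fun i => (((![0, 1, 1] : Fin 3 → ℝ) i : ℝ) : ℂ)) : Matrix (Fin 3) (Fin 3) ℂ)
      = diagonal (fun i => (((![1, 1, 2] : Fin 3 → ℝ) i : ℝ) : ℂ)) := by
    rw [diagonal_add]; congr 1; ext i; fin_cases i <;> norm_num
  have a123 : (diagonal (fun i => (((![2, 1, 1] : Fin 3 → ℝ) i : ℝ) : ℂ)) +
      diagonal (fun i => (((![0, 1, 1] : Fin 3 → ℝ) i : ℝ) : ℂ)) : Matrix (Fin 3) (Fin 3) ℂ)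
      = diagonal (fun i => (((![2, 2, 2] : Fin 3 → ℝ) i : ℝ) : ℂ)) := by
    rw [diagonal_add]; congr 1; ext i; fin_cases i <;> norm_num
  unfold D3 D2 at h
  rw [a12, a13, a23, a123] at h
  rw [schatten_diag p _ (by intro i; fin_cases i <;> norm_num),
    schatten_diag p _ (by intro i; fin_cases i <;> norm_num),
    schatten_diag p _ (by intro i; fin_cases i <;> norm_num),
    schatten_diag p _ (by intro i; fin_cases i <;> norm_num),
    schatten_diag p _ (by intro i; fin_cases i <;> norm_num),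
    schatten_diag p _ (by intro i; fin_cases i <;> norm_num),
    schatten_diag p _ (by intro i; fin_cases i <;> norm_num)] at h
  simp only [Fin.sum_univ_three, Matrix.cons_val_zero, Matrix.cons_val_one, Matrix.cons_val,
    z, o] at h
  set u : ℝ := 1 / p with hu
  have c1 : (1 : ℝ) + 1 + 0 = 2 := by norm_num
  have c2 : (1 : ℝ) + 0 + 1 = 2 := by norm_num
  have c3 : (0 : ℝ) + 1 + 1 = 2 := by norm_num
  have c4 : (1 : ℝ) + 2 ^ p + 1 = 2 ^ p + 1 + 1 := by ring
  have c5 : (1 : ℝ) + 1 + 2 ^ p = 2 ^ p + 1 + 1 := by ring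
  have c6 : (2 : ℝ) ^ p + 2 ^ p + 2 ^ p = 2 ^ p * 3 := by ring
  have two : ((2 : ℝ) ^ p) ^ u = 2 := by
    rw [← Real.rpow_mul (by norm_num), hu, mul_one_div, div_self hp0.ne', Real.rpow_one]
  rw [c1, c2, c3, c4, c5, c6, Real.mul_rpow (by positivity) (by norm_num), two] at h
  have hB : (2 : ℝ) ≤ (2 ^ p + 1 + 1) ^ u := by
    calc (2 : ℝ) = ((2 : ℝ) ^ p) ^ u := two.symm
      _ ≤ _ := Real.rpow_le_rpow (by positivity) (by linarith) hu0.le
  have hA1 : (2 : ℝ) ^ u ≤ 1 + u * 1 := by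
    have := rpow_one_add_le_one_add_mul_self (s := 1) (by norm_num) hu0.le hu1
    rwa [show (1 : ℝ) + 1 = 2 by norm_num] at this
  have h3 : (3 : ℝ) ^ u ≤ 1 + u * 2 := by
    have := rpow_one_add_le_one_add_mul_self (s := 2) (by norm_num) hu0.le hu1
    rwa [show (1 : ℝ) + 2 = 3 by norm_num] at this
  have hA2 : 1 + u * (2 / 3) ≤ (2 : ℝ) ^ u := by
    rw [Real.rpow_def_of_pos (by norm_num)]
    have l2 := Real.log_two_gt_d9
    have := Real.add_one_le_exp (Real.log 2 * u)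
    nlinarith
  have hC0 : (0 : ℝ) ≤ C := C.2
  have hup : (C : ℝ) * (2 ^ u + 2 ^ u - (2 ^ p + 1 + 1) ^ u +
          (2 ^ u + 2 ^ u - (2 ^ p + 1 + 1) ^ u) +
        (2 ^ u + 2 ^ u - (2 ^ p + 1 + 1) ^ u)) ≤ C * (6 * u) :=
    mul_le_mul_of_nonneg_left (by linarith) hC0
  have hfin : 1 - 2 * u ≤ C * (6 * u) := by linarith
  have hpu : u * p = 1 := by rw [hu]; field_simp
  have h6 := mul_le_mul_of_nonneg_right hfin hp0.le
  have e1 : (1 - 2 * u) * p = p - 2 := by linear_combination (-2) * hpu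
  have e2 : (C : ℝ) * (6 * u) * p = 6 * C := by linear_combination (6 * (C : ℝ)) * hpu
  rw [e1, e2] at h6
  linarith

/-- **Theorem.** `C_p` is finite exactly for `1 < p < ∞`: we have `C_1 = ∞`, and for `1 < p < ∞`
`max(1, (p-2)/6) ≤ C_p ≤ 1 + 4 max(p-1, 1/(p-1))`.  Moreover `C_p → ∞` as `p ↓ 1` and as
`p → ∞`. -/
theorem result :
    hlawkaConst 1 = ⊤ ∧
    (∀ p : ℝ, 1 < p → hlawkaConst p < ⊤ ∧
      ENNReal.ofReal (max 1 ((p - 2) / 6)) ≤ hlawkaConst p ∧
      hlawkaConst p ≤ ENNReal.ofReal (1 + 4 * max (p - 1) (1 / (p - 1)))) ∧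
    Tendsto hlawkaConst (𝓝[>] 1) (𝓝 ⊤) ∧ Tendsto hlawkaConst atTop (𝓝 ⊤) := by
  refine ⟨?_, ?_, ?_, ?_⟩
  · unfold hlawkaConst
    refine iInf_eq_top.2 fun C => iInf_eq_top.2 fun hC => ?_
    exfalso
    obtain ⟨X, Y, Z, -, hlt⟩ := exists_bad C C.2
    exact absurd (hC 3 2 (by norm_num) (by norm_num) X Y Z) (not_le.2 hlt)
  · intro p hp
    refine ⟨lt_of_le_of_lt (hlawkaConst_le hp) ENNReal.ofReal_lt_top, ?_, hlawkaConst_le hp⟩
    rcases le_total 1 ((p - 2) / 6) with h | h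
    · rw [max_eq_right h]
      exact le_hlawkaConst fun C hC => growth hp.le C hC
    · rw [max_eq_left h, ENNReal.ofReal_one]
      exact one_le hp.le
  · rw [ENNReal.tendsto_nhds_top_iff_nnreal]
    intro x
    obtain ⟨X, Y, Z, hpos, hlt⟩ := exists_bad ((x : ℝ) + 1) (by positivity)
    have hc2 : ContinuousAt (fun p => D2 p X Y + D2 p X Z + D2 p Y Z) 1 :=
      ((D2_continuousAt X Y).add (D2_continuousAt X Z)).add (D2_continuousAt Y Z)
    have hc3 := D3_continuousAt X Y Z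
    have e1 : ∀ᶠ p in 𝓝 (1 : ℝ), 0 < D2 p X Y + D2 p X Z + D2 p Y Z :=
      hc2.eventually_const_lt hpos
    have e2 : ∀ᶠ p in 𝓝 (1 : ℝ),
        ((x : ℝ) + 1) * (D2 p X Y + D2 p X Z + D2 p Y Z) < D3 p X Y Z :=
      (continuousAt_const.mul hc2).eventually_lt hc3 hlt
    refine ((e1.and e2).filter_mono nhdsWithin_le_nhds).mono fun p hp => ?_
    have hle : ENNReal.ofReal ((x : ℝ) + 1) ≤ hlawkaConst p := by
      refine le_hlawkaConst fun C hC => ?_
      by_contra hcon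
      push Not at hcon
      have h1 := hC 3 2 (by norm_num) (by norm_num) X Y Z
      have h2 : (C : ℝ) * (D2 p X Y + D2 p X Z + D2 p Y Z)
          ≤ ((x : ℝ) + 1) * (D2 p X Y + D2 p X Z + D2 p Y Z) :=
        mul_le_mul_of_nonneg_right hcon.le hp.1.le
      linarith [hp.2]
    refine lt_of_lt_of_le ?_ hle
    rw [← ENNReal.ofReal_coe_nnreal]
    exact (ENNReal.ofReal_lt_ofReal_iff (by positivity)).2 (by linarith)
  · have h1 : Tendsto (fun p : ℝ => ENNReal.ofReal ((p - 2) / 6)) atTop (𝓝 ⊤) := by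
      refine ENNReal.tendsto_ofReal_atTop.comp ?_
      exact (tendsto_atTop_add_const_right atTop (-2) tendsto_id).atTop_div_const (by norm_num)
    refine tendsto_nhds_top_mono h1 ?_
    filter_upwards [eventually_ge_atTop (1 : ℝ)] with p hp
    exact le_hlawkaConst fun C hC => growth hp C hC

end Pool.Agent.Results.MP_1619cf_an.FiniteIffAboveOne
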